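import Pool.Agent.Helper227.SOne

set_option autoImplicit false

/-!
A class of one-generated computably enumerable algebras (two unary operations `f`, `g` with the
laws `f(g(x)) = g(x)` and `g(g(x)) = g(x)`) which fails ACC and whose isomorphism relation is not
`Σ⁰₃`-complete.
-/

namespace Pool.Agent.Results.MP_aec1d5_lc.NotAccNotComplete

open Encodable
open Nat.Partrec (Code)
open Pool.Agent.Helper227

/-- Terms in one variable `x` over the unary function symbols `f` (`true`) and `g` (`false`); the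
word `[a₁, ..., aₙ]` is the term `a₁(a₂(...aₙ(x)...))`. -/
abbrev Term : Type := List Bool

/-- The `e`-th computably enumerable set. -/
def W (e : ℕ) : Set ℕ := {n | ((Denumerable.ofNat Code e).eval n).Dom}

/-- The least congruence on the term algebra which contains every pair coded in `W e` and every
instance of the laws `f(g(x)) = g(x)` and `g(g(x)) = g(x)`. -/
inductive Theta (e : ℕ) : Term → Term → Prop
  | base (u v : Term) (h : encode (u, v) ∈ W e) : Theta e u v
  | law_f (t : Term) : Theta e (true :: false :: t) (false :: t)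
  | law_g (t : Term) : Theta e (false :: false :: t) (false :: t)
  | refl (u : Term) : Theta e u u
  | symm {u v : Term} (h : Theta e u v) : Theta e v u
  | trans {u v w : Term} (h : Theta e u v) (h' : Theta e v w) : Theta e u w
  | congr (a : Bool) {u v : Term} (h : Theta e u v) : Theta e (a :: u) (a :: v)

/-- The congruence as a setoid. -/
def theta (e : ℕ) : Setoid Term where
  r := Theta e
  iseqv := ⟨Theta.refl, Theta.symm, Theta.trans⟩

/-- The algebra presented by `e`. -/
abbrev Alg (e : ℕ) : Type := Quotient (theta e)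

/-- The operations `f` (`op true`) and `g` (`op false`) of the algebra presented by `e`. -/
def op {e : ℕ} (a : Bool) : Alg e → Alg e :=
  Quotient.map (fun u => a :: u) fun _ _ h => Theta.congr a h

/-- The presented algebras are isomorphic. -/
def Iso (e i : ℕ) : Prop := ∃ φ : Alg e ≃ Alg i, ∀ (a : Bool) (q : Alg e), φ (op a q) = op a (φ q)

/-- A congruence of the algebra presented by `e`. -/
def IsCongruence {e : ℕ} (r : Setoid (Alg e)) : Prop :=
  ∀ (a : Bool) (p q : Alg e), r p q → r (op a p) (op a q)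

/-- The class fails ACC: some algebra in it has an infinite strictly ascending chain of
congruences. -/
def FailsACC : Prop := ∃ (e : ℕ) (c : ℕ → Setoid (Alg e)), (∀ n, IsCongruence (c n)) ∧ StrictMono c

/-- `Σ⁰₃` binary relations. -/
def IsSigma3 (P : ℕ → ℕ → Prop) : Prop := ∃ R : (ℕ × ℕ) × (ℕ × ℕ × ℕ) → Prop, ComputablePred R ∧
  ∀ x y, P x y ↔ ∃ a, ∀ b, ∃ c, R ((x, y), (a, b, c))

/-- Computable reducibility of relations. -/
def CRed (P Q : ℕ → ℕ → Prop) : Prop := ∃ f : ℕ → ℕ, Computable f ∧ ∀ x y, P x y ↔ Q (f x) (f y)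

/-- `Σ⁰₃`-completeness of an equivalence relation for computable reducibility. -/
def IsSigma3Complete (E : ℕ → ℕ → Prop) : Prop :=
  IsSigma3 E ∧ ∀ S : Setoid ℕ, IsSigma3 S → CRed S E

/-! ### Words -/

/-- the word `fⁿ` -/
def F (n : ℕ) : Term := List.replicate n true

theorem Theta.append {e : ℕ} (w : Term) {u v : Term} (h : Theta e u v) :
    Theta e (w ++ u) (w ++ v) := by
  induction w with
  | nil => exact h
  | cons a w ih => exact ih.congr a

theorem norm (e : ℕ) (y : Term) : (∃ j, y = F j) ∨ ∃ n, Theta e y (false :: F n) := by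
  induction y with
  | nil => exact Or.inl ⟨0, rfl⟩
  | cons a y ih =>
    cases a with
    | true =>
      rcases ih with ⟨j, rfl⟩ | ⟨n, h⟩
      · exact Or.inl ⟨j + 1, rfl⟩
      · exact Or.inr ⟨n, (h.congr true).trans (Theta.law_f _)⟩
    | false =>
      rcases ih with ⟨j, rfl⟩ | ⟨n, h⟩
      · exact Or.inr ⟨j, Theta.refl _⟩
      · exact Or.inr ⟨n, (h.congr false).trans (Theta.law_g _)⟩

theorem absorb {e : ℕ} (t u : Term) : Theta e (u ++ false :: t) (false :: t) := by
  induction u with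
  | nil => exact Theta.refl _
  | cons a u ih =>
    cases a with
    | true => exact (ih.congr true).trans (Theta.law_f _)
    | false => exact (ih.congr false).trans (Theta.law_g _)

theorem total_of {e : ℕ} {t : Term} (h : Theta e [] (false :: t)) (u v : Term) :
    Theta e u v := by
  have key : ∀ w : Term, Theta e w (false :: t) := by
    intro w
    have := h.append w
    rw [List.append_nil] at this
    exact this.trans (absorb t w)
  exact (key u).trans (key v).symm

/-- the congruence of `e` is the one of `i` read at the term `f^j` -/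
def EQ (e i j : ℕ) : Prop := ∀ z : Term × Term, Theta e z.1 z.2 ↔ Theta i (z.1 ++ F j) (z.2 ++ F j)

theorem EQ_zero_of_total {e i : ℕ} (h1 : ∀ u v, Theta e u v) (h2 : ∀ u v, Theta i u v) :
    EQ e i 0 := fun _ => iff_of_true (h1 _ _) (h2 _ _)

theorem iso_iff (e i : ℕ) : Iso e i ↔ ∃ j, (∃ k, Theta i (F (k + j)) []) ∧ EQ e i j := by
  constructor
  · rintro ⟨φ, hφ⟩
    obtain ⟨y, hy⟩ := Quotient.exists_rep (φ ⟦[]⟧)
    have h1 : ∀ u : Term, φ ⟦u⟧ = ⟦u ++ y⟧ := by
      intro u
      induction u with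
      | nil => exact hy.symm
      | cons a u ih =>
        have h2 : (⟦a :: u⟧ : Alg e) = op a ⟦u⟧ := rfl
        rw [h2, hφ, ih]
        rfl
    have h2 : ∀ u v, Theta e u v ↔ Theta i (u ++ y) (v ++ y) := by
      intro u v
      constructor
      · intro h
        have h3 : (⟦u⟧ : Alg e) = ⟦v⟧ := Quotient.sound h
        have h4 : φ ⟦u⟧ = φ ⟦v⟧ := by rw [h3]
        rw [h1, h1] at h4
        exact Quotient.exact h4
      · intro h
        have h3 : (⟦u ++ y⟧ : Alg i) = ⟦v ++ y⟧ := Quotient.sound h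
        rw [← h1, ← h1] at h3
        exact Quotient.exact (φ.injective h3)
    obtain ⟨q, hq⟩ := φ.surjective ⟦[]⟧
    obtain ⟨u, rfl⟩ := Quotient.exists_rep q
    rw [h1] at hq
    have h3 : Theta i (u ++ y) [] := Quotient.exact hq
    -- if some word with `g` is equivalent to `x`, then everything is trivial
    have htriv : (∃ n, Theta i (u ++ y) (false :: F n)) → ∃ j,
        (∃ k, Theta i (F (k + j)) []) ∧ EQ e i j := by
      rintro ⟨n, hn⟩
      have h4 := total_of (h3.symm.trans hn)
      exact ⟨0, ⟨0, Theta.refl _⟩, EQ_zero_of_total (fun u v => (h2 u v).2 (h4 _ _)) h4⟩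
    rcases norm i (u ++ y) with ⟨m, hm⟩ | h
    · have hall : ∀ b ∈ u ++ y, b = true := by
        rw [hm]; intro b hb; exact List.eq_of_mem_replicate hb
      have hy' : y = F y.length := List.eq_replicate_of_mem fun b hb =>
        hall b (List.mem_append_right _ hb)
      have hu' : u = F u.length := List.eq_replicate_of_mem fun b hb =>
        hall b (List.mem_append_left _ hb)
      refine ⟨y.length, ⟨u.length, ?_⟩, ?_⟩
      · have : F (u.length + y.length) = u ++ y := by
          conv_rhs => rw [hu', hy']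
          exact List.replicate_add ..
        rw [this]
        exact h3
      · intro z
        rw [← hy']
        exact h2 _ _
    · exact htriv h
  · rintro ⟨j, ⟨k, hk⟩, hEQ⟩
    let ψ : Alg e → Alg i := Quotient.map (fun u => u ++ F j) fun u v h => (hEQ (u, v)).1 h
    have hinj : Function.Injective ψ := by
      intro p q
      refine Quotient.inductionOn₂ p q fun u v h => ?_
      exact Quotient.sound ((hEQ (u, v)).2 (Quotient.exact h))
    have hsurj : Function.Surjective ψ := by
      intro q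
      refine Quotient.inductionOn q fun w => ?_
      refine ⟨⟦w ++ F k⟧, ?_⟩
      change (⟦(w ++ F k) ++ F j⟧ : Alg i) = ⟦w⟧
      apply Quotient.sound
      have h1 := hk.append w
      rw [List.append_nil] at h1
      have h2 : (w ++ F k) ++ F j = w ++ F (k + j) := by
        rw [List.append_assoc]
        congr 1
        exact (List.replicate_add ..).symm
      rw [h2]
      exact h1
    refine ⟨Equiv.ofBijective ψ ⟨hinj, hsurj⟩, fun a q => ?_⟩
    refine Quotient.inductionOn q fun u => ?_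
    rfl

theorem F_mod {i q : ℕ} (h : Theta i (F q) []) (j : ℕ) : Theta i (F j) (F (j % q)) := by
  have key : ∀ m r, Theta i (F (r + q * m)) (F r) := by
    intro m
    induction m with
    | zero => intro r; exact Theta.refl _
    | succ m ih =>
      intro r
      have h1 := h.append (F (r + q * m))
      rw [List.append_nil] at h1
      have h2 : F (r + q * m) ++ F q = F (r + q * (m + 1)) := by
        have : r + q * (m + 1) = (r + q * m) + q := by ring
        rw [this]
        exact (List.replicate_add ..).symm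
      rw [h2] at h1
      exact h1.trans (ih r)
  have := key (j / q) (j % q)
  rwa [Nat.mod_add_div] at this

/-- the pair is a witness against `EQ` -/
def NE (e i j : ℕ) (z : Term × Term) : Prop :=
  (Theta e z.1 z.2 ∧ ¬ Theta i (z.1 ++ F j) (z.2 ++ F j)) ∨
    (¬ Theta e z.1 z.2 ∧ Theta i (z.1 ++ F j) (z.2 ++ F j))

theorem not_EQ_iff (e i j : ℕ) : ¬ EQ e i j ↔ ∃ z, NE e i j z := by
  unfold EQ NE
  push Not
  refine exists_congr fun z => ?_
  tauto

/-- the witness for non-isomorphism -/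
def DD (e i : ℕ) (a : ℕ × List (Term × Term)) : Prop :=
  (a.1 = 0 ∧ (∀ p, ¬ Theta i (F (p + 1)) []) ∧ NE e i 0 (a.2.getD 0 ([], []))) ∨
    ((1 ≤ a.1 ∧ Theta i (F a.1) []) ∧ ∀ j < a.1, NE e i j (a.2.getD j ([], [])))

theorem not_iso_iff (e i : ℕ) : ¬ Iso e i ↔ ∃ a, DD e i a := by
  rw [iso_iff]
  constructor
  · intro h
    push Not at h
    by_cases hc : ∃ p, Theta i (F (p + 1)) []
    · obtain ⟨p, hp⟩ := hc
      have h1 : ∀ j < p + 1, ∃ z, NE e i j z := by
        intro j hj
        rw [← not_EQ_iff]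
        refine h j ⟨p + 1 - j, ?_⟩
        have : p + 1 - j + j = p + 1 := by omega
        rw [this]
        exact hp
      choose z hz using h1
      refine ⟨(p + 1, (List.range (p + 1)).attach.map fun j => z j.1 (List.mem_range.1 j.2)),
        Or.inr ⟨⟨by omega, hp⟩, fun j hj => ?_⟩⟩
      have hg : (((List.range (p + 1)).attach.map fun j => z j.1 (List.mem_range.1 j.2)).getD j
          ([], [])) = z j hj := by
        have hj' : j < p + 1 := hj
        simp [List.getD, hj']
      rw [hg]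
      exact hz j hj
    · push Not at hc
      have h1 : ¬ EQ e i 0 := h 0 ⟨0, Theta.refl _⟩
      rw [not_EQ_iff] at h1
      obtain ⟨z, hz⟩ := h1
      exact ⟨(0, [z]), Or.inl ⟨rfl, hc, hz⟩⟩
  · rintro ⟨⟨q, L⟩, h⟩ ⟨j, ⟨k, hk⟩, hE⟩
    rcases h with ⟨-, h1, h2⟩ | ⟨⟨h1, h2⟩, h3⟩
    · cases j with
      | zero => exact (not_EQ_iff e i 0).2 ⟨_, h2⟩ hE
      | succ j => exact h1 (k + j) hk
    · simp only at h1 h2 h3
      refine (not_EQ_iff e i (j % q)).2 ⟨_, h3 (j % q) (Nat.mod_lt _ h1)⟩ fun z => ?_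
      rw [hE z]
      have hm := F_mod h2 j
      constructor
      · intro h
        exact ((hm.append z.1).symm.trans h).trans (hm.append z.2)
      · intro h
        exact ((hm.append z.1).trans h).trans (hm.append z.2).symm

/-! ### The congruences are uniformly computably enumerable -/

/-- one step -/
def Bs (e : ℕ) (s t : Term) : Prop :=
  encode (s, t) ∈ W e ∨ ((∃ a, s = a :: t) ∧ t.head? = some false)

/-- rewriting at a subterm -/
def St (e : ℕ) (u v : Term) : Prop :=
  ∃ p s t : Term, (u = p ++ s ∧ v = p ++ t) ∧ (Bs e s t ∨ Bs e t s)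

theorem Theta_of_Bs {e : ℕ} {s t : Term} (h : Bs e s t) : Theta e s t := by
  rcases h with h | ⟨⟨a, rfl⟩, h⟩
  · exact Theta.base _ _ h
  · rcases t with _ | ⟨b, t⟩
    · simp at h
    · simp only [List.head?_cons, Option.some.injEq] at h
      subst h
      cases a
      · exact Theta.law_g t
      · exact Theta.law_f t

theorem St_symm {e : ℕ} {u v : Term} (h : St e u v) : St e v u := by
  obtain ⟨p, s, t, ⟨h1, h2⟩, h3⟩ := h
  exact ⟨p, t, s, ⟨h2, h1⟩, h3.symm⟩

theorem St_cons {e : ℕ} (a : Bool) {u v : Term} (h : St e u v) : St e (a :: u) (a :: v) := by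
  obtain ⟨p, s, t, ⟨h1, h2⟩, h3⟩ := h
  exact ⟨a :: p, s, t, ⟨by rw [h1]; rfl, by rw [h2]; rfl⟩, h3⟩

theorem path_symm {e : ℕ} {u v : Term} (h : Relation.ReflTransGen (St e) u v) :
    Relation.ReflTransGen (St e) v u := by
  induction h with
  | refl => exact Relation.ReflTransGen.refl
  | tail _ h ih => exact Relation.ReflTransGen.head (St_symm h) ih

theorem path_cons {e : ℕ} (a : Bool) {u v : Term} (h : Relation.ReflTransGen (St e) u v) :
    Relation.ReflTransGen (St e) (a :: u) (a :: v) := by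
  induction h with
  | refl => exact Relation.ReflTransGen.refl
  | tail _ h ih => exact ih.tail (St_cons a h)

theorem theta_iff_path (e : ℕ) (u v : Term) : Theta e u v ↔ Relation.ReflTransGen (St e) u v := by
  constructor
  · intro h
    have hb : ∀ {s t : Term}, Bs e s t → Relation.ReflTransGen (St e) s t := fun h =>
      Relation.ReflTransGen.single ⟨[], _, _, ⟨rfl, rfl⟩, Or.inl h⟩
    induction h with
    | base u v h => exact hb (Or.inl h)
    | law_f t => exact hb (Or.inr ⟨⟨_, rfl⟩, rfl⟩)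
    | law_g t => exact hb (Or.inr ⟨⟨_, rfl⟩, rfl⟩)
    | refl u => exact Relation.ReflTransGen.refl
    | symm _ ih => exact path_symm ih
    | trans _ _ ih1 ih2 => exact ih1.trans ih2
    | congr a _ ih => exact path_cons a ih
  · intro h
    induction h with
    | refl => exact Theta.refl _
    | tail _ h ih =>
      obtain ⟨p, s, t, ⟨h1, h2⟩, h3⟩ := h
      refine ih.trans ?_
      rw [h1, h2]
      apply Theta.append
      rcases h3 with h3 | h3
      · exact Theta_of_Bs h3
      · exact (Theta_of_Bs h3).symm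

theorem path_iff_list {r : Term → Term → Prop} (u v : Term) : Relation.ReflTransGen r u v ↔
    ∃ n, ∃ L : List Term, (L.getD 0 [] = u ∧ L.getD n [] = v) ∧
      ∀ i < n, r (L.getD i []) (L.getD (i + 1) []) := by
  constructor
  · intro h
    have : ∃ n, ∃ g : ℕ → Term, g 0 = u ∧ g n = v ∧ ∀ i < n, r (g i) (g (i + 1)) := by
      induction h with
      | refl => exact ⟨0, fun _ => u, rfl, rfl, fun i hi => absurd hi (Nat.not_lt_zero i)⟩
      | @tail b c _ hbc ih =>
        obtain ⟨n, g, h1, h2, h3⟩ := ih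
        refine ⟨n + 1, fun i => if i ≤ n then g i else c, by simp [h1], by simp, fun i hi => ?_⟩
        by_cases hin : i < n
        · have e1 : i ≤ n := by omega
          have e2 : i + 1 ≤ n := by omega
          simp only [if_pos e1, if_pos e2]
          exact h3 i hin
        · have e1 : i = n := by omega
          subst e1
          simp only [le_refl, if_true]
          rw [if_neg (by omega), h2]
          exact hbc
    obtain ⟨n, g, h1, h2, h3⟩ := this
    refine ⟨n, (List.range (n + 1)).map g, ⟨by simp [List.getD, h1], by simp [List.getD, h2]⟩,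
      fun i hi => ?_⟩
    have e1 : ((List.range (n + 1)).map g).getD i [] = g i := by
      simp [List.getD, show i < n + 1 by omega]
    have e2 : ((List.range (n + 1)).map g).getD (i + 1) [] = g (i + 1) := by
      simp [List.getD, show i + 1 < n + 1 by omega]
    rw [e1, e2]
    exact h3 i hi
  · rintro ⟨n, L, ⟨h1, h2⟩, h3⟩
    have key : ∀ i ≤ n, Relation.ReflTransGen r u (L.getD i []) := by
      intro i
      induction i with
      | zero => intro _; rw [h1]
      | succ i ih => intro hi; exact (ih (by omega)).tail (h3 i (by omega))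
    rw [← h2]
    exact key n le_rfl

theorem s1_W : S1 fun x : ℕ × ℕ => x.2 ∈ W x.1 := by
  have h : Partrec fun x : ℕ × ℕ => (Denumerable.ofNat Code x.1).eval x.2 :=
    Code.eval_part.comp ((Computable.ofNat Code).comp Computable.fst) Computable.snd
  exact S1.of_re h.dom_re

theorem s1_Bs : S1 fun x : ℕ × (Term × Term) => Bs x.1 x.2.1 x.2.2 := by
  refine S1.or ?_ (S1.and ?_ (S1.of_prim ?_))
  · exact s1_W.comp (f := fun x : ℕ × (Term × Term) => (x.1, encode x.2))
      (Primrec.fst.pair (Primrec.encode.comp Primrec.snd))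
  · refine S1.ex (p := fun (x : ℕ × (Term × Term)) (a : Bool) => x.2.1 = a :: x.2.2)
      (S1.of_prim ?_)
    exact Primrec.eq.comp (Primrec.fst.comp (Primrec.snd.comp Primrec.fst))
      (Primrec.list_cons.comp Primrec.snd (Primrec.snd.comp (Primrec.snd.comp Primrec.fst)))
  · exact Primrec.eq.comp (Primrec.list_head?.comp (Primrec.snd.comp Primrec.snd))
      (Primrec.const (some false))

theorem s1_St : S1 fun x : ℕ × (Term × Term) => St x.1 x.2.1 x.2.2 := by
  refine S1.ex (p := fun (x : ℕ × (Term × Term)) (p : Term) => ∃ s t : Term,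
    (x.2.1 = p ++ s ∧ x.2.2 = p ++ t) ∧ (Bs x.1 s t ∨ Bs x.1 t s)) ?_
  refine S1.ex (p := fun (x : (ℕ × (Term × Term)) × Term) (s : Term) => ∃ t : Term,
    (x.1.2.1 = x.2 ++ s ∧ x.1.2.2 = x.2 ++ t) ∧ (Bs x.1.1 s t ∨ Bs x.1.1 t s)) ?_
  refine S1.ex (p := fun (x : ((ℕ × (Term × Term)) × Term) × Term) (t : Term) =>
    (x.1.1.2.1 = x.1.2 ++ x.2 ∧ x.1.1.2.2 = x.1.2 ++ t) ∧ (Bs x.1.1.1 x.2 t ∨ Bs x.1.1.1 t x.2)) ?_
  have a1 : Primrec fun x : (((ℕ × (Term × Term)) × Term) × Term) × Term => x.1.1.1 :=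
    Primrec.fst.comp (Primrec.fst.comp Primrec.fst)
  have a2 : Primrec fun x : (((ℕ × (Term × Term)) × Term) × Term) × Term => x.1.1.2 :=
    Primrec.snd.comp (Primrec.fst.comp Primrec.fst)
  have a3 : Primrec fun x : (((ℕ × (Term × Term)) × Term) × Term) × Term => x.1.2 :=
    Primrec.snd.comp Primrec.fst
  refine S1.and (S1.of_prim (PrimrecPred.and ?_ ?_)) (S1.or ?_ ?_)
  · exact Primrec.eq.comp (Primrec.fst.comp (Primrec.snd.comp a1)) (Primrec.list_append.comp a2 a3)
  · exact Primrec.eq.comp (Primrec.snd.comp (Primrec.snd.comp a1))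
      (Primrec.list_append.comp a2 Primrec.snd)
  · exact s1_Bs.comp (f := fun x : (((ℕ × (Term × Term)) × Term) × Term) × Term =>
      (x.1.1.1.1, (x.1.2, x.2))) ((Primrec.fst.comp a1).pair (a3.pair Primrec.snd))
  · exact s1_Bs.comp (f := fun x : (((ℕ × (Term × Term)) × Term) × Term) × Term =>
      (x.1.1.1.1, (x.2, x.1.2))) ((Primrec.fst.comp a1).pair (Primrec.snd.pair a3))

theorem s1_Theta : S1 fun x : ℕ × (Term × Term) => Theta x.1 x.2.1 x.2.2 := by
  have h : S1 fun x : ℕ × (Term × Term) => ∃ n, ∃ L : List Term,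
      (L.getD 0 [] = x.2.1 ∧ L.getD n [] = x.2.2) ∧
      ∀ i < n, St x.1 (L.getD i []) (L.getD (i + 1) []) := by
    refine S1.ex (p := fun (x : ℕ × (Term × Term)) (n : ℕ) => ∃ L : List Term,
      (L.getD 0 [] = x.2.1 ∧ L.getD n [] = x.2.2) ∧
      ∀ i < n, St x.1 (L.getD i []) (L.getD (i + 1) [])) ?_
    refine S1.ex (p := fun (x : (ℕ × (Term × Term)) × ℕ) (L : List Term) =>
      (L.getD 0 [] = x.1.2.1 ∧ L.getD x.2 [] = x.1.2.2) ∧
      ∀ i < x.2, St x.1.1 (L.getD i []) (L.getD (i + 1) [])) ?_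
    have hg := Primrec.list_getD ([] : Term)
    refine S1.and (S1.of_prim (PrimrecPred.and ?_ ?_)) ?_
    · exact Primrec.eq.comp (hg.comp Primrec.snd (Primrec.const 0))
        (Primrec.fst.comp (Primrec.snd.comp (Primrec.fst.comp Primrec.fst)))
    · exact Primrec.eq.comp (hg.comp Primrec.snd (Primrec.snd.comp Primrec.fst))
        (Primrec.snd.comp (Primrec.snd.comp (Primrec.fst.comp Primrec.fst)))
    · refine S1.all_lt (p := fun (x : ((ℕ × (Term × Term)) × ℕ) × List Term) (i : ℕ) =>
        St x.1.1.1 (x.2.getD i []) (x.2.getD (i + 1) [])) (f := fun x => x.1.2) ?_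
        (Primrec.snd.comp Primrec.fst)
      exact s1_St.comp (f := fun x : (((ℕ × (Term × Term)) × ℕ) × List Term) × ℕ =>
        (x.1.1.1.1, (x.1.2.getD x.2 [], x.1.2.getD (x.2 + 1) [])))
        ((Primrec.fst.comp (Primrec.fst.comp (Primrec.fst.comp Primrec.fst))).pair
          ((hg.comp (Primrec.snd.comp Primrec.fst) Primrec.snd).pair
            (hg.comp (Primrec.snd.comp Primrec.fst) (Primrec.succ.comp Primrec.snd))))
  refine h.of_eq fun x => ?_
  rw [theta_iff_path, path_iff_list]

/-! ### A calculus of `Π⁰₂` predicates -/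

/-- `Π⁰₂` predicates -/
def P2 {α : Type} [Primcodable α] (p : α → Prop) : Prop :=
  ∃ Q : α × ℕ → Prop, S1 Q ∧ ∀ a, p a ↔ ∀ b, Q (a, b)

namespace P2

variable {α β : Type} [Primcodable α] [Primcodable β]

theorem of_s1 {p : α → Prop} (h : S1 p) : P2 p :=
  ⟨fun x => p x.1, h.comp Primrec.fst, fun a => ⟨fun h _ => h, fun h => h 0⟩⟩

theorem not_s1 {p : α → Prop} (h : S1 p) : P2 fun a => ¬ p a := by
  obtain ⟨q, hq, -, he⟩ := h
  refine ⟨fun x => ¬ q x.1 x.2, S1.of_prim (PrimrecPred.not hq), fun a => ?_⟩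
  change (¬ p a) ↔ ∀ b, ¬ q a b
  rw [he a]
  push Not
  rfl

theorem of_eq {p q : α → Prop} (hp : P2 p) (h : ∀ a, p a ↔ q a) : P2 q :=
  (funext fun a => propext (h a) : p = q) ▸ hp

theorem comp {p : β → Prop} {f : α → β} (hp : P2 p) (hf : Primrec f) : P2 fun a => p (f a) := by
  obtain ⟨Q, hQ, h⟩ := hp
  exact ⟨fun x => Q (f x.1, x.2), hQ.comp ((hf.comp Primrec.fst).pair Primrec.snd),
    fun a => h (f a)⟩

theorem comp_computable {p : β → Prop} {f : α → β} (hp : P2 p) (hf : Computable f) :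
    P2 fun a => p (f a) := by
  obtain ⟨Q, hQ, h⟩ := hp
  exact ⟨fun x => Q (f x.1, x.2), hQ.comp_computable ((hf.comp Computable.fst).pair
    Computable.snd), fun a => h (f a)⟩

theorem and {p q : α → Prop} (hp : P2 p) (hq : P2 q) : P2 fun a => p a ∧ q a := by
  obtain ⟨P, hP, h1⟩ := hp
  obtain ⟨Q, hQ, h2⟩ := hq
  refine ⟨fun x => P x ∧ Q x, hP.and hQ, fun a => ?_⟩
  change (p a ∧ q a) ↔ ∀ b, P (a, b) ∧ Q (a, b)
  rw [h1, h2, forall_and]

theorem or {p q : α → Prop} (hp : P2 p) (hq : P2 q) : P2 fun a => p a ∨ q a := by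
  obtain ⟨P, hP, h1⟩ := hp
  obtain ⟨Q, hQ, h2⟩ := hq
  refine ⟨fun x => P (x.1, x.2.unpair.1) ∨ Q (x.1, x.2.unpair.2), S1.or (hP.comp ?_)
    (hQ.comp ?_), fun a => ?_⟩
  · exact Primrec.fst.pair (Primrec.fst.comp (Primrec.unpair.comp Primrec.snd))
  · exact Primrec.fst.pair (Primrec.snd.comp (Primrec.unpair.comp Primrec.snd))
  · change (p a ∨ q a) ↔ ∀ b : ℕ, P (a, b.unpair.1) ∨ Q (a, b.unpair.2)
    rw [h1, h2]
    constructor
    · rintro (h | h) b
      · exact Or.inl (h _)
      · exact Or.inr (h _)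
    · intro h
      by_contra hcon
      push Not at hcon
      obtain ⟨⟨b1, h3⟩, ⟨b2, h4⟩⟩ := hcon
      rcases h (Nat.pair b1 b2) with h5 | h5
      · simp only [Nat.unpair_pair] at h5; exact h3 h5
      · simp only [Nat.unpair_pair] at h5; exact h4 h5

theorem all {p : α → ℕ → Prop} (hp : P2 fun x : α × ℕ => p x.1 x.2) : P2 fun a => ∀ b, p a b := by
  obtain ⟨P, hP, h1⟩ := hp
  refine ⟨fun x => P ((x.1, x.2.unpair.1), x.2.unpair.2), hP.comp ?_, fun a => ?_⟩
  · exact (Primrec.fst.pair (Primrec.fst.comp (Primrec.unpair.comp Primrec.snd))).pair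
      (Primrec.snd.comp (Primrec.unpair.comp Primrec.snd))
  · constructor
    · intro h b
      exact (h1 (a, b.unpair.1)).1 (h b.unpair.1) _
    · intro h b
      refine (h1 (a, b)).2 fun c => ?_
      have := h (Nat.pair b c)
      simpa using this

end P2

theorem primrec_F : Primrec F := by
  have h : Primrec fun n : ℕ => (fun w : Term => true :: w)^[n] [] :=
    Primrec.nat_iterate (f := fun n : ℕ => n) (g := fun _ => []) (h := fun _ w => true :: w)
      Primrec.id (Primrec.const []) (Primrec.list_cons.comp (Primrec.const true) Primrec.snd)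
  refine h.of_eq fun n => ?_
  induction n with
  | zero => rfl
  | succ n ih => rw [Function.iterate_succ_apply', ih]; rfl

theorem p2_NE : P2 fun x : (ℕ × ℕ) × (ℕ × (Term × Term)) => NE x.1.1 x.1.2 x.2.1 x.2.2 := by
  have g1 : Primrec fun x : (ℕ × ℕ) × (ℕ × (Term × Term)) => (x.1.1, x.2.2) :=
    (Primrec.fst.comp Primrec.fst).pair (Primrec.snd.comp Primrec.snd)
  have g2 : Primrec fun x : (ℕ × ℕ) × (ℕ × (Term × Term)) =>
      (x.1.2, (x.2.2.1 ++ F x.2.1, x.2.2.2 ++ F x.2.1)) := by
    have hF : Primrec fun x : (ℕ × ℕ) × (ℕ × (Term × Term)) => F x.2.1 :=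
      primrec_F.comp (Primrec.fst.comp Primrec.snd)
    refine (Primrec.snd.comp Primrec.fst).pair (Primrec.pair ?_ ?_)
    · exact Primrec.list_append.comp (Primrec.fst.comp (Primrec.snd.comp Primrec.snd)) hF
    · exact Primrec.list_append.comp (Primrec.snd.comp (Primrec.snd.comp Primrec.snd)) hF
  have s1 := s1_Theta.comp g1
  have s2 := s1_Theta.comp g2
  exact P2.or (P2.and (P2.of_s1 s1) (P2.not_s1 s2)) (P2.and (P2.not_s1 s1) (P2.of_s1 s2))

theorem p2_DD : P2 fun x : (ℕ × ℕ) × (ℕ × List (Term × Term)) => DD x.1.1 x.1.2 x.2 := by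
  have hq : Primrec fun x : (ℕ × ℕ) × (ℕ × List (Term × Term)) => x.2.1 :=
    Primrec.fst.comp Primrec.snd
  have hg := Primrec.list_getD (([], []) : Term × Term)
  refine P2.or (P2.and (P2.of_s1 (S1.of_prim (Primrec.eq.comp hq (Primrec.const 0))))
    (P2.and ?_ ?_)) (P2.and (P2.and (P2.of_s1 (S1.of_prim (Primrec.nat_le.comp (Primrec.const 1)
      hq))) (P2.of_s1 ?_)) ?_)
  · refine P2.all (p := fun (x : (ℕ × ℕ) × (ℕ × List (Term × Term))) (p : ℕ) =>
      ¬ Theta x.1.2 (F (p + 1)) []) (P2.not_s1 ?_)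
    exact s1_Theta.comp (f := fun x : ((ℕ × ℕ) × (ℕ × List (Term × Term))) × ℕ =>
      (x.1.1.2, (F (x.2 + 1), []))) ((Primrec.snd.comp (Primrec.fst.comp Primrec.fst)).pair
        ((primrec_F.comp (Primrec.succ.comp Primrec.snd)).pair (Primrec.const [])))
  · exact p2_NE.comp (f := fun x : (ℕ × ℕ) × (ℕ × List (Term × Term)) =>
      (x.1, (0, x.2.2.getD 0 ([], [])))) (Primrec.fst.pair ((Primrec.const 0).pair
        (hg.comp (Primrec.snd.comp Primrec.snd) (Primrec.const 0))))
  · exact s1_Theta.comp (f := fun x : (ℕ × ℕ) × (ℕ × List (Term × Term)) =>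
      (x.1.2, (F x.2.1, []))) ((Primrec.snd.comp Primrec.fst).pair
        ((primrec_F.comp hq).pair (Primrec.const [])))
  · refine P2.all (p := fun (x : (ℕ × ℕ) × (ℕ × List (Term × Term))) (j : ℕ) =>
      j < x.2.1 → NE x.1.1 x.1.2 j (x.2.2.getD j ([], []))) ?_
    refine (P2.or (P2.of_s1 (S1.of_prim (p := fun x : ((ℕ × ℕ) × (ℕ × List (Term × Term))) × ℕ =>
      ¬ x.2 < x.1.2.1) (Primrec.nat_lt.comp Primrec.snd (hq.comp Primrec.fst)).not))
      (p2_NE.comp (f := fun x : ((ℕ × ℕ) × (ℕ × List (Term × Term))) × ℕ =>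
        (x.1.1, (x.2, x.1.2.2.getD x.2 ([], [])))) ?_)).of_eq fun x => ?_
    · exact (Primrec.fst.comp Primrec.fst).pair (Primrec.snd.pair (hg.comp (Primrec.snd.comp
        (Primrec.snd.comp Primrec.fst)) Primrec.snd))
    · exact imp_iff_not_or.symm

/-! ### Diagonalisation -/

/-- a set which is `Σ⁰₃` and whose complement is not -/
def K3 (e : ℕ) : Prop := ∃ a : ℕ, ∀ b : ℕ, ((Denumerable.ofNat Code e).eval (encode (e, a, b))).Dom

theorem K3_diag (D : ℕ × ℕ → Prop) (hD : P2 D) (h : ∀ x, ¬ K3 x ↔ ∃ a, D (x, a)) : False := by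
  obtain ⟨Q, hQ, h1⟩ := hD
  have hQ' : S1 fun x : ℕ × ℕ × ℕ => Q ((x.1, x.2.1), x.2.2) :=
    hQ.comp ((Primrec.fst.pair (Primrec.fst.comp Primrec.snd)).pair (Primrec.snd.comp Primrec.snd))
  obtain ⟨c, hc⟩ := Code.exists_code.1 hQ'.re
  have h2 : K3 (encode c) ↔ ∃ a, ∀ b, Q ((encode c, a), b) := by
    unfold K3
    rw [Denumerable.ofNat_encode, hc]
    simp [Part.assert]
  have h3 := h (encode c)
  have h4 : (∃ a, D (encode c, a)) ↔ ∃ a, ∀ b, Q ((encode c, a), b) :=
    exists_congr fun a => h1 _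
  rw [h4, ← h2] at h3
  tauto

theorem exists_K3 : ∃ x, K3 x := by
  obtain ⟨c, hc⟩ := Code.exists_code.1 (Partrec.nat_iff.1 (Computable.const (α := ℕ) 0).partrec)
  refine ⟨encode c, 0, fun b => ?_⟩
  rw [Denumerable.ofNat_encode, hc]
  trivial

/-- the diagonal equivalence relation -/
def diagS : Setoid ℕ where
  r x y := x = y ∨ (K3 x ∧ K3 y)
  iseqv := ⟨fun x => Or.inl rfl, by
    rintro x y (rfl | ⟨h1, h2⟩)
    · exact Or.inl rfl
    · exact Or.inr ⟨h2, h1⟩, by
    rintro x y z (rfl | ⟨h1, h2⟩) (rfl | ⟨h3, h4⟩)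
    · exact Or.inl rfl
    · exact Or.inr ⟨h3, h4⟩
    · exact Or.inr ⟨h1, h2⟩
    · exact Or.inr ⟨h1, h4⟩⟩

theorem diagS_sigma3 : IsSigma3 diagS := by
  have hE : S1 fun x : ℕ × ℕ × ℕ => ((Denumerable.ofNat Code x.1).eval (encode x)).Dom := by
    have h : Partrec fun x : ℕ × ℕ × ℕ => (Denumerable.ofNat Code x.1).eval (encode x) :=
      Code.eval_part.comp ((Computable.ofNat Code).comp Computable.fst) Computable.encode
    exact S1.of_re h.dom_re
  have hQ : S1 fun x : (ℕ × ℕ) × (ℕ × ℕ) => x.1.1 = x.1.2 ∨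
      (((Denumerable.ofNat Code x.1.1).eval (encode (x.1.1, x.2.1.unpair.1, x.2.2.unpair.1))).Dom ∧
      ((Denumerable.ofNat Code x.1.2).eval (encode (x.1.2, x.2.1.unpair.2,
        x.2.2.unpair.2))).Dom) := by
    have u1 : Primrec fun x : (ℕ × ℕ) × (ℕ × ℕ) => x.2.1.unpair :=
      Primrec.unpair.comp (Primrec.fst.comp Primrec.snd)
    have u2 : Primrec fun x : (ℕ × ℕ) × (ℕ × ℕ) => x.2.2.unpair :=
      Primrec.unpair.comp (Primrec.snd.comp Primrec.snd)
    refine S1.or (S1.of_prim ?_) (S1.and ?_ ?_)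
    · exact Primrec.eq.comp (Primrec.fst.comp Primrec.fst) (Primrec.snd.comp Primrec.fst)
    · exact hE.comp (f := fun x : (ℕ × ℕ) × (ℕ × ℕ) =>
        (x.1.1, x.2.1.unpair.1, x.2.2.unpair.1)) ((Primrec.fst.comp Primrec.fst).pair
          ((Primrec.fst.comp u1).pair (Primrec.fst.comp u2)))
    · exact hE.comp (f := fun x : (ℕ × ℕ) × (ℕ × ℕ) =>
        (x.1.2, x.2.1.unpair.2, x.2.2.unpair.2)) ((Primrec.snd.comp Primrec.fst).pair
          ((Primrec.snd.comp u1).pair (Primrec.snd.comp u2)))
  obtain ⟨q, hq, -, he⟩ := hQ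
  refine ⟨fun x => q (x.1, (x.2.1, x.2.2.1)) x.2.2.2, ?_, fun x y => ?_⟩
  · have : PrimrecPred fun x : (ℕ × ℕ) × (ℕ × ℕ × ℕ) => q (x.1, (x.2.1, x.2.2.1)) x.2.2.2 :=
      hq.comp (Primrec.fst.pair ((Primrec.fst.comp Primrec.snd).pair
        (Primrec.fst.comp (Primrec.snd.comp Primrec.snd))))
        (Primrec.snd.comp (Primrec.snd.comp Primrec.snd))
    exact this.computablePred
  · have h1 : ∀ a b, (∃ c, q ((x, y), (a, b)) c) ↔ x = y ∨
      (((Denumerable.ofNat Code x).eval (encode (x, a.unpair.1, b.unpair.1))).Dom ∧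
      ((Denumerable.ofNat Code y).eval (encode (y, a.unpair.2, b.unpair.2))).Dom) :=
      fun a b => (he ((x, y), (a, b))).symm
    simp only [h1]
    constructor
    · rintro (h | ⟨⟨a1, h2⟩, ⟨a2, h3⟩⟩)
      · exact ⟨0, fun b => Or.inl h⟩
      · refine ⟨Nat.pair a1 a2, fun b => Or.inr ?_⟩
        simp only [Nat.unpair_pair]
        exact ⟨h2 _, h3 _⟩
    · rintro ⟨a, h⟩
      by_cases hxy : x = y
      · exact Or.inl hxy
      · right
        constructor
        · refine ⟨a.unpair.1, fun b => ?_⟩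
          have := h (Nat.pair b b)
          simp only [Nat.unpair_pair] at this
          rcases this with h4 | h4
          · exact absurd h4 hxy
          · exact h4.1
        · refine ⟨a.unpair.2, fun b => ?_⟩
          have := h (Nat.pair b b)
          simp only [Nat.unpair_pair] at this
          rcases this with h4 | h4
          · exact absurd h4 hxy
          · exact h4.2

theorem not_complete : ¬ IsSigma3Complete Iso := by
  rintro ⟨-, h⟩
  obtain ⟨f, hf, hred⟩ := h diagS diagS_sigma3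
  obtain ⟨x0, hx0⟩ := exists_K3
  have h1 : ∀ y, K3 y ↔ Iso (f x0) (f y) := by
    intro y
    rw [← hred]
    constructor
    · intro hy
      exact Or.inr ⟨hx0, hy⟩
    · rintro (rfl | ⟨-, h⟩)
      · exact hx0
      · exact h
  refine K3_diag (fun x => ∃ a, decode (α := ℕ × List (Term × Term)) x.2 = some a ∧
    DD (f x0) (f x.1) a) ?_ fun y => ?_
  · have h2 : P2 fun x : ℕ × ℕ => (∃ a, decode (α := ℕ × List (Term × Term)) x.2 = some a) ∧
        DD (f x0) (f x.1) ((decode (α := ℕ × List (Term × Term)) x.2).getD (0, [])) := by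
      refine P2.and (P2.of_s1 ?_) ?_
      · refine S1.ex (p := fun (x : ℕ × ℕ) (a : ℕ × List (Term × Term)) =>
          decode (α := ℕ × List (Term × Term)) x.2 = some a) (S1.of_prim ?_)
        exact Primrec.eq.comp (Primrec.decode.comp (Primrec.snd.comp Primrec.fst))
          (Primrec.option_some.comp Primrec.snd)
      · refine P2.comp_computable (f := fun x : ℕ × ℕ => ((f x0, f x.1),
          (decode (α := ℕ × List (Term × Term)) x.2).getD (0, []))) p2_DD ?_
        exact ((Computable.const _).pair (hf.comp Computable.fst)).pair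
          (Computable.option_getD (Computable.decode.comp Computable.snd) (Computable.const _))
    refine h2.of_eq fun x => ?_
    constructor
    · rintro ⟨⟨a, ha⟩, h3⟩
      rw [ha] at h3
      exact ⟨a, ha, h3⟩
    · rintro ⟨a, ha, h3⟩
      refine ⟨⟨a, ha⟩, ?_⟩
      rw [ha]
      exact h3
  · rw [h1, not_iso_iff]
    constructor
    · rintro ⟨a, ha⟩
      exact ⟨encode a, a, encodek a, ha⟩
    · rintro ⟨_, a, -, ha⟩
      exact ⟨a, ha⟩

/-! ### Failure of ACC -/

/-- normal forms in the free algebra -/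
def nf : Term → Bool × ℕ
  | [] => (false, 0)
  | true :: w => if (nf w).1 then nf w else (false, (nf w).2 + 1)
  | false :: w => (true, (nf w).2)

theorem nf_eq {e : ℕ} (he : W e = ∅) {u v : Term} (h : Theta e u v) : nf u = nf v := by
  induction h with
  | base u v h => rw [he] at h; exact absurd h (Set.notMem_empty _)
  | law_f t => simp [nf]
  | law_g t => simp [nf]
  | refl u => rfl
  | symm _ ih => exact ih.symm
  | trans _ _ ih1 ih2 => exact ih1.trans ih2
  | congr a _ ih => cases a <;> simp [nf, ih]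

theorem nf_F (k : ℕ) : nf (F k) = (false, k) := by
  induction k with
  | zero => rfl
  | succ k ih =>
    have : F (k + 1) = true :: F k := rfl
    rw [this]
    simp [nf, ih]

theorem failsACC : FailsACC := by
  obtain ⟨c, hc⟩ := Code.exists_code.1 Nat.Partrec.none
  have he : W (encode c) = ∅ := by
    unfold W
    rw [Denumerable.ofNat_encode, hc]
    simp
  have hop : ∀ (a : Bool) (k : ℕ), op a (⟦false :: F k⟧ : Alg (encode c)) = ⟦false :: F k⟧ := by
    intro a k
    apply Quotient.sound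
    cases a
    · exact Theta.law_g _
    · exact Theta.law_f _
  let P : ℕ → Alg (encode c) → Prop := fun n q => ∃ k ≤ n, q = ⟦false :: F k⟧
  let C : ℕ → Setoid (Alg (encode c)) := fun n =>
    { r := fun p q => p = q ∨ (P n p ∧ P n q)
      iseqv := ⟨fun x => Or.inl rfl, by
        rintro x y (rfl | ⟨h1, h2⟩)
        · exact Or.inl rfl
        · exact Or.inr ⟨h2, h1⟩, by
        rintro x y z (rfl | ⟨h1, h2⟩) (rfl | ⟨h3, h4⟩)
        · exact Or.inl rfl
        · exact Or.inr ⟨h3, h4⟩
        · exact Or.inr ⟨h1, h2⟩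
        · exact Or.inr ⟨h1, h4⟩⟩ }
  refine ⟨encode c, C, ?_, ?_⟩
  · rintro n a p q (rfl | ⟨⟨k, hk, rfl⟩, ⟨l, hl, rfl⟩⟩)
    · exact Or.inl rfl
    · rw [hop, hop]
      exact Or.inr ⟨⟨k, hk, rfl⟩, ⟨l, hl, rfl⟩⟩
  · refine strictMono_nat_of_lt_succ fun n => ?_
    refine lt_of_le_of_ne ?_ ?_
    · rintro p q (rfl | ⟨⟨k, hk, rfl⟩, ⟨l, hl, rfl⟩⟩)
      · exact Or.inl rfl
      · exact Or.inr ⟨⟨k, by omega, rfl⟩, ⟨l, by omega, rfl⟩⟩
    · intro h
      have h1 : C (n + 1) ⟦false :: F (n + 1)⟧ ⟦false :: F 0⟧ :=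
        Or.inr ⟨⟨n + 1, le_rfl, rfl⟩, ⟨0, by omega, rfl⟩⟩
      rw [← h] at h1
      have hne : ∀ k ≤ n, (⟦false :: F (n + 1)⟧ : Alg (encode c)) ≠ ⟦false :: F k⟧ := by
        intro k hk h2
        have h3 := nf_eq he (Quotient.exact h2)
        simp only [nf, nf_F, Prod.mk.injEq, true_and] at h3
        omega
      rcases h1 with h1 | ⟨⟨k, hk, h2⟩, -⟩
      · exact hne 0 (by omega) h1
      · exact hne k hk h2

/-- The class of one-generated computably enumerable algebras with two unary operations `f`, `g`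
satisfying `f(g(x)) = g(x)` and `g(g(x)) = g(x)` fails ACC, and its isomorphism relation is not
`Σ⁰₃`-complete. -/
theorem result : FailsACC ∧ ¬ IsSigma3Complete Iso := ⟨failsACC, not_complete⟩

end Pool.Agent.Results.MP_aec1d5_lc.NotAccNotComplete
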